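import Pool.Agent.H47.BT.Comm

/-!
MP_c9ffa7_al: torsion-free barely transitive groups; centralizers of subgroups which are normalized by
almost all of a point stabilizer.
-/

set_option autoImplicit false

open scoped Pointwise

namespace H64.Old.CommensuratedCentralizer

/-- Let `G` be a torsion-free barely transitive group on `Ω` and `x` a point. Let `M` be a nontrivial
subgroup whose normalizer contains a subgroup of finite index of the stabilizer of `x`. If `G` is
finitely generated, or if `M` is commensurable with all its conjugates, then `M` has trivial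
centralizer in `G`. -/
theorem result (G Ω : Type*) [Group G] [MulAction G Ω] [FaithfulSMul G Ω]
    [MulAction.IsPretransitive G Ω] [Infinite Ω]
    (bare : ∀ K : Subgroup G, K ≠ ⊤ → ∀ x : Ω, (MulAction.orbit K x).Finite)
    (tf : ∀ g : G, IsOfFinOrder g → g = 1) (x : Ω) (M : Subgroup G) (hM : M ≠ ⊥)
    (hN : (Subgroup.normalizer (M : Set G)).relIndex (MulAction.stabilizer G x) ≠ 0)
    (h : Group.FG G ∨ Subgroup.Commensurable.commensurator M = ⊤) :
    Subgroup.centralizer (M : Set G) = ⊥ := by
  have hB : H47.BT.Bare G Ω := ⟨inferInstance, inferInstance, inferInstance, bare, tf⟩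
  rcases h with fg | hc
  · by_contra hne
    refine (hB.sys fg x).main (M := M) (N := Subgroup.centralizer (M : Set G))
      ⟨Subgroup.normalizer (M : Set G), hN, fun a ha m hm => ?_⟩ hM hne ?_
    · exact (Subgroup.mem_normalizer_iff.1 ha m).1 hm
    · intro m hm n hn
      exact Subgroup.mem_centralizer_iff.1 hn m hm
  · refine hB.comm_cz x hN (fun a ha m hm => (Subgroup.mem_normalizer_iff.1 ha m).1 hm) ?_ hM
    intro g
    have h1 : g ∈ Subgroup.Commensurable.commensurator M := by rw [hc]; trivial
    have h2 := ((Subgroup.Commensurable.commensurator_mem_iff M g).1 h1).1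
    have h3 : ConjAct.toConjAct g • M = H47.BT.cj g M := by
      ext y
      rw [H47.BT.mem_cj, Subgroup.mem_pointwise_smul_iff_inv_smul_mem, ConjAct.smul_def]
      simp
    rwa [h3] at h2

end H64.Old.CommensuratedCentralizer
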