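import Pool.Agent.H64.BT.AllOrd

/-!
MP_c9ffa7_al: barely transitive groups are not locally bi-orderable.
-/

set_option autoImplicit false

namespace H64.Old.NotBiOrderable

/-- Every barely transitive group `G` has a finitely generated subgroup `F` which is not
bi-orderable: there is no linear order on `F` preserved by all left and right multiplications. -/
theorem result (G Ω : Type*) [Group G] [MulAction G Ω] [FaithfulSMul G Ω]
    [MulAction.IsPretransitive G Ω] [Infinite Ω]
    (bare : ∀ K : Subgroup G, K ≠ ⊤ → ∀ x : Ω, (MulAction.orbit K x).Finite) :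
    ∃ F : Subgroup G, F.FG ∧
      ¬ ∃ _ : LinearOrder F, (∀ a b c : F, a ≤ b → c * a ≤ c * b) ∧
        (∀ a b c : F, a ≤ b → a * c ≤ b * c) :=
  H64.BT.all_order bare

end H64.Old.NotBiOrderable
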