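import Pool.Agent.H64.BA.Sol

/-!
MP_c9ffa7_al: torsion-free barely transitive groups; soluble subgroups which are normalized by a
subgroup of finite index of a point stabilizer.
-/

set_option autoImplicit false

namespace H64.Old.SolubleStabilizers

/-- Let `G` be a torsion-free barely transitive group on `Ω` and `x` a point. If the normalizer of the
nontrivial subgroup `M` contains a subgroup of finite index of the stabilizer of `x`, then `M` is not
soluble. In particular no subgroup of finite index of the stabilizer has a nontrivial soluble normal
subgroup. -/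
theorem result (G Ω : Type*) [Group G] [MulAction G Ω] [FaithfulSMul G Ω]
    [MulAction.IsPretransitive G Ω] [Infinite Ω]
    (bare : ∀ K : Subgroup G, K ≠ ⊤ → ∀ x : Ω, (MulAction.orbit K x).Finite)
    (tf : ∀ g : G, IsOfFinOrder g → g = 1) (x : Ω) (M : Subgroup G) (hM : M ≠ ⊥)
    (hN : (Subgroup.normalizer (M : Set G)).relIndex (MulAction.stabilizer G x) ≠ 0) :
    ¬ Group.IsSolvable M := by
  have hB : H47.BT.Bare G Ω := ⟨inferInstance, inferInstance, inferInstance, bare, tf⟩
  exact H64.BA.not_solvable hB x hM hN fun a ha m hm => (Subgroup.mem_normalizer_iff.1 ha m).1 hm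

end H64.Old.SolubleStabilizers
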